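import Pool.Agent.W8.LS.Stm

/-!
# Project LS, continuity of the parametrisations
-/

set_option autoImplicit false

open scoped Topology ContDiff
open Complex (I)

namespace Pool.Agent.W701.LS.ChCont

open Pool.Agent.W8.LS

noncomputable section

theorem contOn_ch (i : Idx) : ContinuousOn (ch i) (dom i) := by
  rw [continuousOn_iff_continuous_domRestrict]
  refine continuous_iff_coinduced_le.mpr ?_
  exact le_iSup (fun i => TopologicalSpace.coinduced (fun x : dom i => ch i x) inferInstance) i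

theorem isOpen_UA (s c : ℝ) : IsOpen (UA s c) := by
  have h1 : Continuous (fun Q : V => |Q.1 - s|) := by fun_prop
  have h2 : Continuous (fun Q : V => |Q.2.1 - c|) := by fun_prop
  have h3 : Continuous (fun Q : V => ‖Q.2.2.1‖ * (1 + ‖Q.2.2.2‖ ^ 2)) := by fun_prop
  exact (isOpen_lt h1 continuous_const).inter ((isOpen_lt h2 continuous_const).inter
    (isOpen_lt h3 continuous_const))

theorem isOpen_UB (s c : ℝ) : IsOpen (UB s c) := by
  have h1 : Continuous (fun Q : V => |Q.1 - s|) := by fun_prop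
  have h2 : Continuous (fun Q : V => |Q.2.1 - c|) := by fun_prop
  have h3 : Continuous (fun Q : V => ‖Q.2.2.2‖ * (1 + ‖Q.2.2.1‖ ^ 2)) := by fun_prop
  exact (isOpen_lt h1 continuous_const).inter ((isOpen_lt h2 continuous_const).inter
    (isOpen_lt h3 continuous_const))

theorem ChCont_proof : ChCont := by
  intro hF hL
  obtain ⟨hRE, hAS, hSR, hPt, hActS, hSite, hFlip, hSC, hNS, hNSing, hSRel, hSq, hRC, hLS, hLT⟩ := hF
  refine ⟨?_, ?_, ?_⟩
  · intro P hP
    obtain ⟨O, hPO, hO⟩ := hL hSC P hP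
    exact ((contOn_ch (Idx.reg O hO)).continuousAt (hO.1.mem_nhds hPO)).continuousWithinAt
  · intro k l m r Q hQ
    have hmem : Q ∈ UA Q.1 Q.2.1 := by
      refine ⟨?_, ?_, hQ⟩ <;> simp
    exact ((contOn_ch (Idx.A k l m r Q.1 Q.2.1)).continuousAt
      ((isOpen_UA _ _).mem_nhds hmem)).continuousWithinAt
  · intro k l m r Q hQ
    have hmem : Q ∈ UB Q.1 Q.2.1 := by
      refine ⟨?_, ?_, hQ⟩ <;> simp
    exact ((contOn_ch (Idx.B k l m r Q.1 Q.2.1)).continuousAt
      ((isOpen_UB _ _).mem_nhds hmem)).continuousWithinAt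

end

end Pool.Agent.W701.LS.ChCont
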