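import Pool.Agent.W701.LS.LTRB

/-!
# Project LS, transition from the regular part to the charts `A`
-/

set_option autoImplicit false

open scoped Topology ContDiff
open Complex (I)

namespace Pool.Agent.W701.LS.LTRA

open Pool.Agent.W8.LS Pool.Agent.W701.LS.LTRB

noncomputable section

/-- the coordinate change `(s, c, z, w) ↦ (s, c, z ^ 2 / 2, w / z)` -/
def ka (X : V) : V := (X.1, X.2.1, X.2.2.1 * X.2.2.1 * (1 / 2), X.2.2.2 * (X.2.2.1)⁻¹)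

theorem ss_ka {X : V} (hX : X.2.2.1 ≠ 0) : SS ka X := by
  have c1 : ContDiffAt ℝ ∞ (fun X : V => X.1) X := contDiff_fst.contDiffAt
  have c2 : ContDiffAt ℝ ∞ (fun X : V => X.2.1) X := (contDiff_fst.comp contDiff_snd).contDiffAt
  have c3 : ContDiffAt ℝ ∞ (fun X : V => X.2.2.1) X :=
    (contDiff_fst.comp (contDiff_snd.comp contDiff_snd)).contDiffAt
  have c4 : ContDiffAt ℝ ∞ (fun X : V => X.2.2.2) X :=
    (contDiff_snd.comp (contDiff_snd.comp contDiff_snd)).contDiffAt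
  refine ⟨c1.prodMk (c2.prodMk (((c3.mul c3).mul contDiffAt_const).prodMk (c4.mul (c3.inv hX)))),
    ?_⟩
  have p1 : HasFDerivAt (fun X : V => X.1) (ContinuousLinearMap.fst ℝ ℝ (ℝ × ℂ × ℂ)) X :=
    hasFDerivAt_fst
  have p2 : HasFDerivAt (fun X : V => X.2.1)
      ((ContinuousLinearMap.fst ℝ ℝ (ℂ × ℂ)).comp (ContinuousLinearMap.snd ℝ ℝ (ℝ × ℂ × ℂ))) X :=
    ((ContinuousLinearMap.fst ℝ ℝ (ℂ × ℂ)).comp
      (ContinuousLinearMap.snd ℝ ℝ (ℝ × ℂ × ℂ))).hasFDerivAt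
  have p3 : HasFDerivAt (fun X : V => X.2.2.1)
      ((ContinuousLinearMap.fst ℝ ℂ ℂ).comp ((ContinuousLinearMap.snd ℝ ℝ (ℂ × ℂ)).comp
        (ContinuousLinearMap.snd ℝ ℝ (ℝ × ℂ × ℂ)))) X :=
    ((ContinuousLinearMap.fst ℝ ℂ ℂ).comp ((ContinuousLinearMap.snd ℝ ℝ (ℂ × ℂ)).comp
        (ContinuousLinearMap.snd ℝ ℝ (ℝ × ℂ × ℂ)))).hasFDerivAt
  have p4 : HasFDerivAt (fun X : V => X.2.2.2)
      ((ContinuousLinearMap.snd ℝ ℂ ℂ).comp ((ContinuousLinearMap.snd ℝ ℝ (ℂ × ℂ)).comp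
        (ContinuousLinearMap.snd ℝ ℝ (ℝ × ℂ × ℂ)))) X :=
    ((ContinuousLinearMap.snd ℝ ℂ ℂ).comp ((ContinuousLinearMap.snd ℝ ℝ (ℂ × ℂ)).comp
        (ContinuousLinearMap.snd ℝ ℝ (ℝ × ℂ × ℂ)))).hasFDerivAt
  have hi := ((hasDerivAt_inv hX).hasFDerivAt.restrictScalars ℝ).comp X p3
  have hk : HasFDerivAt ka _ X := p1.prodMk (p2.prodMk
    (((p3.mul p3).mul (hasFDerivAt_const (1 / 2 : ℂ) X)).prodMk (p4.mul hi)))
  intro a b
  rw [hk.fderiv]
  unfold om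
  simp only [ContinuousLinearMap.prod_apply, ContinuousLinearMap.coe_fst',
    ContinuousLinearMap.comp_apply, ContinuousLinearMap.coe_snd', _root_.add_apply,
    _root_.smul_apply, smul_eq_mul, Function.comp]
  congr 2
  simp
  field_simp
  ring

theorem LTRA_proof : LTRA := by
  intro hF P Q k l m r hP hQ hPQ
  obtain ⟨hRE, hAS, hSR, hPt, hActS, hSite, hFlip, hSC, hNS, hNSing, hSRel, hSq, hRC, hLS, hLT⟩ := hF
  obtain ⟨hsq, -, hsq0, -, -, hsqz⟩ := hSq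
  obtain ⟨hS1, hS2, hS3, hS4⟩ := hSite k l m r
  have hrel := ((hPt _ _ _ _).mp hPQ).1
  have hrel' := hrel
  obtain ⟨e, k1, l1, a, n, m1, r1, he, hact⟩ := hrel'
  obtain ⟨hA1, hA2⟩ := hActS e k1 l1 a n m1 r1 he
  have hu : Pool.Agent.W8.LS.sq Q.2.2.1 ≠ 0 := fun h => hQ (hsq0 _ h)
  have hX : siteInv k l m r (act e k1 l1 a n m1 r1 P) =
      (Q.1, Q.2.1, Pool.Agent.W8.LS.sq Q.2.2.1, Q.2.2.2 * Pool.Agent.W8.LS.sq Q.2.2.1) := by
    rw [← hact, hS3]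
  refine ⟨fun Z => ka (siteInv k l m r (act e k1 l1 a n m1 r1 Z)), ?_, ?_⟩
  · show ka (siteInv k l m r (act e k1 l1 a n m1 r1 P)) = Q
    rw [hX]
    unfold ka
    have h1 : Q.2.2.2 * Pool.Agent.W8.LS.sq Q.2.2.1 * (Pool.Agent.W8.LS.sq Q.2.2.1)⁻¹ =
        Q.2.2.2 := by
      field_simp
    have h2 : Pool.Agent.W8.LS.sq Q.2.2.1 * Pool.Agent.W8.LS.sq Q.2.2.1 * (1 / 2) =
        Q.2.2.1 := by
      have := hsq Q.2.2.1
      rw [← pow_two, this]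
      ring
    simp only [h1, h2]
  · have hcont : Continuous (fun Z : V => (siteInv k l m r (act e k1 l1 a n m1 r1 Z)).2.2.1) :=
      (hS2.1.continuous.comp hA1.continuous).snd.snd.fst
    have hev1 : ∀ᶠ Z in 𝓝 P, (siteInv k l m r (act e k1 l1 a n m1 r1 Z)).2.2.1 ≠ 0 := by
      refine hcont.continuousAt.eventually_ne ?_
      rw [hX]
      exact hu
    have hev2 : ∀ᶠ Z in 𝓝 P, ¬ sing Z := by
      have : IsOpen {P : V | sing P}ᶜ := IsClosed.isOpen_compl (self := hSC)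
      exact this.mem_nhds hP
    filter_upwards [hev1, hev2] with Z hZ1 hZ2
    have hSSA : SS (act e k1 l1 a n m1 r1) Z := ⟨hA1.contDiffAt, hA2 Z⟩
    have hSSI : SS (siteInv k l m r) (act e k1 l1 a n m1 r1 Z) :=
      ⟨hS2.1.contDiffAt, hS2.2 _⟩
    have hSS0 : SS (fun Z => siteInv k l m r (act e k1 l1 a n m1 r1 Z)) Z :=
      SS.comp (f := act e k1 l1 a n m1 r1) (g := siteInv k l m r) hSSI hSSA
    have hSS : SS (fun Z => ka (siteInv k l m r (act e k1 l1 a n m1 r1 Z))) Z :=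
      SS.comp (f := fun Z => siteInv k l m r (act e k1 l1 a n m1 r1 Z)) (g := ka)
        (ss_ka hZ1) hSS0
    refine ⟨hSS.1, hSS.2, ?_⟩
    have hrelZ : rel Z (act e k1 l1 a n m1 r1 Z) := ⟨e, k1, l1, a, n, m1, r1, he, rfl⟩
    have hsX : site k l m r (siteInv k l m r (act e k1 l1 a n m1 r1 Z)) =
        act e k1 l1 a n m1 r1 Z := hS4 _
    set X : V := siteInv k l m r (act e k1 l1 a n m1 r1 Z) with hXdef
    have key : rel Z (site k l m r (X.1, X.2.1,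
        Pool.Agent.W8.LS.sq (X.2.2.1 * X.2.2.1 * (1 / 2)),
        X.2.2.2 * (X.2.2.1)⁻¹ * Pool.Agent.W8.LS.sq (X.2.2.1 * X.2.2.1 * (1 / 2)))) := by
      have he2 : X.2.2.1 * X.2.2.1 * (1 / 2) = X.2.2.1 ^ 2 / 2 := by ring
      rw [he2]
      rcases hsqz X.2.2.1 with h | h
      · rw [h]
        have : X.2.2.2 * (X.2.2.1)⁻¹ * X.2.2.1 = X.2.2.2 := by field_simp
        rw [this]
        have h3 : site k l m r (X.1, X.2.1, X.2.2.1, X.2.2.2) = act e k1 l1 a n m1 r1 Z := hsX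
        rw [h3]
        exact hrelZ
      · rw [h]
        have : X.2.2.2 * (X.2.2.1)⁻¹ * -X.2.2.1 = -X.2.2.2 := by field_simp
        rw [this]
        refine hRE.trans ?_ (hFlip k l m r X.1 X.2.1 X.2.2.1 X.2.2.2).1
        have h3 : site k l m r (X.1, X.2.1, X.2.2.1, X.2.2.2) = act e k1 l1 a n m1 r1 Z := hsX
        rw [h3]
        exact hrelZ
    refine ((hPt _ _ _ _).mpr ⟨hRE.symm key, ?_⟩)
    intro hs
    exact absurd ((hSR _ _ key).mpr hs) hZ2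

end

end Pool.Agent.W701.LS.LTRA
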