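import Pool.Agent.W8.LS.Stm

/-!
# Project LS, transitions inside the regular part
-/

set_option autoImplicit false

open scoped Topology ContDiff
open Complex (I)

namespace Pool.Agent.W701.LS.LTRR

open Pool.Agent.W8.LS

noncomputable section

theorem LTRR_proof : LTRR := by
  intro hF P Q hP hPQ
  obtain ⟨hRE, hAS, hSR, hPt, hActS, hSite, hFlip, hSC, hNS, hNSing, hSRel, hSq, hRC, hLS, hLT⟩ := hF
  have hrel := ((hPt _ _ _ _).mp hPQ).1
  obtain ⟨e, k1, l1, a, n, m1, r1, he, hact⟩ := hrel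
  obtain ⟨hA1, hA2⟩ := hActS e k1 l1 a n m1 r1 he
  refine ⟨act e k1 l1 a n m1 r1, hact.symm, Filter.Eventually.of_forall ?_⟩
  intro Z
  refine ⟨hA1.contDiffAt, hA2 Z, ?_⟩
  have hrelZ : rel Z (act e k1 l1 a n m1 r1 Z) := ⟨e, k1, l1, a, n, m1, r1, he, rfl⟩
  exact (hPt _ _ _ _).mpr ⟨hRE.symm hrelZ, fun _ => rfl⟩

end

end Pool.Agent.W701.LS.LTRR
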