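import Pool.Agent.W8.LS.Stm

/-!
# Project LS, injectivity inside one cap
-/

set_option autoImplicit false

open scoped Topology ContDiff
open Complex (I)

namespace Pool.Agent.W701.LS.LamInj

open Pool.Agent.W8.LS

noncomputable section

theorem cosh_shift (z : ℂ) (n : ℤ) :
    Complex.cosh (2 * (Real.pi : ℂ) * (z + n * I)) = Complex.cosh (2 * (Real.pi : ℂ) * z) := by
  rw [← Complex.cos_mul_I, ← Complex.cos_mul_I]
  have h : 2 * (Real.pi : ℂ) * (z + n * I) * I =
      2 * (Real.pi : ℂ) * z * I - (n : ℂ) * (2 * (Real.pi : ℂ)) := by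
    have := Complex.I_mul_I
    linear_combination (2 * (Real.pi : ℂ) * (n : ℂ)) * this
  rw [h, Complex.cos_sub_int_mul_two_pi]

theorem cosh_neg_shift (z : ℂ) (n : ℤ) :
    Complex.cosh (2 * (Real.pi : ℂ) * (-z + n * I)) = Complex.cosh (2 * (Real.pi : ℂ) * z) := by
  rw [cosh_shift, mul_neg, Complex.cosh_neg]

theorem int_zero_of_abs_lt {n : ℤ} (h : |(n : ℝ)| < 1) : n = 0 := by
  have : |n| < 1 := by exact_mod_cast h
  exact Int.abs_lt_one_iff.mp this

theorem LamInj_proof : LamInj := by
  intro hF k l m r N s s' z z' hz hz' heq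
  obtain ⟨⟨hRE, hAS, hSR, hPt, hActS, hSite, hFlip, hSC, hNS, hNSing, hSRel, hSq, hRC, hLS, hLT⟩,
    hHf, hCosh, hLoc, hlam⟩ := hF
  rw [hlam k l m r N s z _ rfl, hlam k l m r N s' z' _ rfl] at heq
  obtain ⟨e, k1, l1, a, n, m1, r1, he, hact⟩ := ((hPt _ _ _ _).mp heq).1
  unfold site act sheet at hact
  simp only [Prod.mk.injEq] at hact
  obtain ⟨h1, h2, h3, h4⟩ := hact
  have h3r := congrArg Complex.re h3
  have h3i := congrArg Complex.im h3
  have hz1 := abs_lt.mp hz
  have hz2 := abs_lt.mp hz'
  rcases he with he | he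
  · subst he
    simp at h1 h3r h3i
    have hk : k1 = 0 := by
      apply int_zero_of_abs_lt
      rw [abs_lt]
      constructor <;> linarith
    subst hk
    simp at h1 h3r
    have hzz : z' = z + (l1 : ℂ) * I := by
      apply Complex.ext
      · simp; linarith
      · simp; linarith
    constructor
    · refine ⟨a - k * l1, ?_⟩
      have : z'.im = z.im + l1 := by linarith
      rw [this] at h1
      push_cast
      linarith
    · rw [hzz, cosh_shift]
  · subst he
    simp at h1 h3r h3i
    have hk : k - k1 = 0 := by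
      apply int_zero_of_abs_lt
      push_cast
      rw [abs_lt]
      constructor <;> linarith
    have hk' : k1 = k := by omega
    subst hk'
    have hzz : z' = -z + ((l - l1 : ℤ) : ℂ) * I := by
      apply Complex.ext
      · simp; linarith
      · simp; linarith
    constructor
    · refine ⟨a + k1 * l1, ?_⟩
      have : z'.im = -z.im + l - l1 := by linarith
      rw [this] at h1
      push_cast
      linarith
    · rw [hzz, cosh_neg_shift]

end

end Pool.Agent.W701.LS.LamInj
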